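import Pool.Agent.H17.SD.Targets

/-!
# MP_70ba79_ag, DET: maximal minors of too many vectors orthogonal to three vectors
-/

set_option autoImplicit false

namespace Pool.Agent.H78.SFG

open MvPolynomial SC Pool.Agent.H27.LV
open Pool.Agent.H92.SF Pool.Agent.H3.SF Pool.Agent.H17.SD

theorem pf_DET : T_DET := by
  intro F σ _ _ r hcard v D hD hort q
  classical
  have hker : Module.finrank F (LinearMap.ker (Matrix.of D).mulVecLin) = r := by
    have h1 := LinearMap.finrank_range_add_finrank_ker (Matrix.of D).mulVecLin
    have h2 : (Matrix.of D).rank = 3 := by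
      have h3 := LinearIndependent.rank_matrix (M := Matrix.of D) hD
      rw [h3, Fintype.card_fin]
    rw [Matrix.rank] at h2
    rw [h2, Module.finrank_fintype_fun_eq_card, hcard] at h1
    omega
  have hmem : ∀ i, v i ∈ LinearMap.ker (Matrix.of D).mulVecLin := by
    intro i
    rw [LinearMap.mem_ker, Matrix.mulVecLin_apply]
    funext l
    rw [Matrix.mulVec, dotProduct, Pi.zero_apply, ← hort i l]
    exact Finset.sum_congr rfl fun s _ => mul_comm _ _
  have hdep : ¬ LinearIndependent F v := by
    intro hv
    have h1 : LinearIndependent F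
        (fun i => (⟨v i, hmem i⟩ : LinearMap.ker (Matrix.of D).mulVecLin)) :=
      LinearIndependent.of_comp (LinearMap.ker (Matrix.of D).mulVecLin).subtype hv
    have h2 := h1.fintype_card_le_finrank
    rw [hker, Fintype.card_fin] at h2
    omega
  obtain ⟨a, ha, i, hi⟩ := Fintype.not_linearIndependent_iff.1 hdep
  refine Matrix.exists_vecMul_eq_zero_iff.1 ⟨a, ?_, ?_⟩
  · intro h
    exact hi (congrFun h i)
  · funext j
    rw [Matrix.vecMul, dotProduct, Pi.zero_apply]
    have h1 := congrFun ha (q j)
    rw [Finset.sum_apply, Pi.zero_apply] at h1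
    rw [← h1]
    rfl

end Pool.Agent.H78.SFG
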