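import Pool.Agent.H17.SD.Targets

/-!
# MP_70ba79_ag, QDD: derivations and the derivative of the minimal polynomial
-/

set_option autoImplicit false

namespace Pool.Agent.H78.SFG

open MvPolynomial SC Pool.Agent.H27.LV
open Pool.Agent.H92.SF Pool.Agent.H3.SF Pool.Agent.H17.SD

/-- the derivation of a polynomial expression -/
theorem der_eval {k F : Type} [Field k] [Field F] [Algebra k F] (D : Derivation k F F)
    (P : Polynomial F) (θ : F) : D (P.eval θ) =
    (∑ i ∈ Finset.range (P.natDegree + 1), θ ^ i * D (P.coeff i)) +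
      P.derivative.eval θ * D θ := by
  rw [Polynomial.derivative_eval, Polynomial.sum_over_range _ (by intro n; simp),
    Polynomial.eval_eq_sum_range, map_sum, Finset.sum_mul, ← Finset.sum_add_distrib]
  refine Finset.sum_congr rfl fun i _ => ?_
  rw [Derivation.leibniz, Derivation.leibniz_pow]
  simp only [smul_eq_mul, nsmul_eq_mul]
  ring

/-- the derivative in a subalgebra -/
theorem der_mem {k F : Type} [Field k] [Field F] [Algebra k F] (S : Subalgebra k F)
    (P : Polynomial F) (θ : F) (hθ : θ ∈ S) (hP : ∀ i, P.coeff i ∈ S) :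
    P.derivative.eval θ ∈ S := by
  rw [Polynomial.derivative_eval, Polynomial.sum_over_range _ (by intro n; simp)]
  exact S.sum_mem fun i _ => S.mul_mem (S.mul_mem (hP i) (natCast_mem S i)) (S.pow_mem hθ _)

theorem pf_QDD (_h1 : T_ITA) (h2 : T_MPC) : T_QDD := by
  intro k F ι _ _ _ _ u θ hu _ hθ D hD b hb
  have hAB : PA k u ≤ PB k u θ := Algebra.adjoin_mono (Set.subset_insert _ _)
  have hθB : θ ∈ PB k u θ := Algebra.subset_adjoin (Set.mem_insert _ _)
  -- `D` maps `k[u]` to itself
  have hDA : ∀ a ∈ PA k u, D a ∈ PA k u := by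
    intro a ha
    refine Algebra.adjoin_induction ?_ ?_ ?_ ?_ ha
    · rintro _ ⟨i, rfl⟩
      exact hD i
    · intro r
      rw [Derivation.map_algebraMap]
      exact (PA k u).zero_mem
    · intro x y _ _ hx hy
      rw [map_add]
      exact (PA k u).add_mem hx hy
    · intro x y hxA hyA hx hy
      rw [Derivation.leibniz, smul_eq_mul, smul_eq_mul]
      exact (PA k u).add_mem ((PA k u).mul_mem hxA hy) ((PA k u).mul_mem hyA hx)
  -- the minimal polynomial
  set P : Polynomial F := (minpoly (kF k u) θ).map (algebraMap (kF k u) F) with hPdef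
  have hPc : ∀ i, P.coeff i ∈ PA k u := by
    intro i
    obtain ⟨Q, hQ⟩ := h2 k F ι u hu θ hθ i
    rw [hPdef, Polynomial.coeff_map]
    have h3 : algebraMap (kF k u) F ((minpoly (kF k u) θ).coeff i) = aeval u Q := hQ
    rw [h3, PA, Algebra.adjoin_range_eq_range_aeval]
    exact ⟨Q, rfl⟩
  have hPe : P.eval θ = 0 := by
    rw [hPdef, Polynomial.eval_map_algebraMap]
    exact minpoly.aeval _ _
  have hqd : qd k u θ = P.derivative.eval θ := by
    rw [qd, hPdef, Polynomial.derivative_map, Polynomial.eval_map_algebraMap]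
  have hqdB : qd k u θ ∈ PB k u θ := by
    rw [hqd]
    exact der_mem _ _ _ hθB fun i => hAB (hPc i)
  have hqθ : qd k u θ * D θ ∈ PB k u θ := by
    have h3 := der_eval D P θ
    rw [hPe, map_zero, ← hqd] at h3
    have h4 : qd k u θ * D θ =
        -(∑ i ∈ Finset.range (P.natDegree + 1), θ ^ i * D (P.coeff i)) := by
      linear_combination -h3
    rw [h4]
    exact (PB k u θ).neg_mem ((PB k u θ).sum_mem fun i _ =>
      (PB k u θ).mul_mem ((PB k u θ).pow_mem hθB i) (hAB (hDA _ (hPc i))))
  refine Algebra.adjoin_induction (p := fun b _ => qd k u θ * D b ∈ PB k u θ) ?_ ?_ ?_ ?_ hb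
  · rintro x (rfl | ⟨i, rfl⟩)
    · exact hqθ
    · exact (PB k u θ).mul_mem hqdB (hAB (hD i))
  · intro r
    rw [Derivation.map_algebraMap, mul_zero]
    exact (PB k u θ).zero_mem
  · intro x y _ _ hx hy
    rw [map_add, mul_add]
    exact (PB k u θ).add_mem hx hy
  · intro x y hxA hyA hx hy
    have h5 : qd k u θ * D (x * y) = x * (qd k u θ * D y) + y * (qd k u θ * D x) := by
      rw [Derivation.leibniz, smul_eq_mul, smul_eq_mul]
      ring
    rw [h5]
    exact (PB k u θ).add_mem ((PB k u θ).mul_mem hxA hy) ((PB k u θ).mul_mem hyA hx)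

end Pool.Agent.H78.SFG
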